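import Mathlib
import Pool.Agent.Helper3_PPX.Stmts

/-! COP: elimination of one variable -/

set_option autoImplicit false

universe u v

namespace Pool.Agent.PPX.H65

open MvPolynomial nonZeroDivisors

/-- elimination for polynomials over a factorial ring -/
theorem elim_poly {A : Type*} [CommRing A] [IsDomain A] [UniqueFactorizationMonoid A]
    (P Q : Polynomial A) (hP : Irreducible P) (hPQ : ¬ P ∣ Q) (hd : P.natDegree ≠ 0) :
    ∃ (U V : Polynomial A) (w : A), U * P + V * Q = Polynomial.C w ∧ w ≠ 0 := by
  classical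
  let K := FractionRing A
  have hprim : P.IsPrimitive := hP.isPrimitive hd
  have hirr : Irreducible (P.map (algebraMap A K)) :=
    hprim.irreducible_iff_irreducible_map_fraction_map.mp hP
  have hnd : ¬ P.map (algebraMap A K) ∣ Q.map (algebraMap A K) := by
    intro h
    exact hPQ (hprim.dvd_of_fraction_map_dvd_fraction_map h)
  have hcop : IsCoprime (P.map (algebraMap A K)) (Q.map (algebraMap A K)) :=
    (Irreducible.coprime_iff_not_dvd hirr).mpr hnd
  obtain ⟨a, b, hab⟩ := hcop
  obtain ⟨c, c0, hc⟩ := IsLocalization.integerNormalization_spec A⁰ a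
  obtain ⟨d, d0, hd'⟩ := IsLocalization.integerNormalization_spec A⁰ b
  rw [Algebra.smul_def, Polynomial.algebraMap_apply] at hc hd'
  rw [mem_nonZeroDivisors_iff_ne_zero] at c0 d0
  refine ⟨Polynomial.C d * IsLocalization.integerNormalization A⁰ a,
    Polynomial.C c * IsLocalization.integerNormalization A⁰ b, c * d, ?_, mul_ne_zero c0 d0⟩
  apply Polynomial.map_injective (algebraMap A K) (IsFractionRing.injective _ _)
  rw [Polynomial.map_add, Polynomial.map_mul, Polynomial.map_mul, Polynomial.map_mul,
    Polynomial.map_mul, hc, hd', Polynomial.map_C, Polynomial.map_C, Polynomial.map_C, map_mul,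
    Polynomial.C_mul]
  linear_combination (Polynomial.C (algebraMap A K c) * Polynomial.C (algebraMap A K d)) * hab

/-- COP -/
theorem cop : CopStmt.{u, v} := by
  classical
  intro k _ σ _ R Q hR hRQ i
  by_cases hd : degreeOf i R = 0
  · exact ⟨1, 0, R, by rw [one_mul, zero_mul, add_zero], hR.ne_zero, hd⟩
  let e : MvPolynomial σ k ≃ₐ[k] Polynomial (MvPolynomial {b // b ≠ i} k) :=
    (renameEquiv k (Equiv.optionSubtypeNe i).symm).trans (optionEquivLeft k {b // b ≠ i})
  have he : ∀ p : MvPolynomial σ k, degreeOf i p = (e p).natDegree := by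
    intro p
    rw [degreeOf_eq_natDegree i p]
    rfl
  have h1 : Irreducible (e R) := (MulEquiv.irreducible_iff e.toMulEquiv).mpr hR
  have h2 : ¬ e R ∣ e Q := by
    intro h
    apply hRQ
    have := map_dvd e.symm h
    rwa [AlgEquiv.symm_apply_apply, AlgEquiv.symm_apply_apply] at this
  obtain ⟨U, V, w, h3, h4⟩ := elim_poly (e R) (e Q) h1 h2 (by rw [← he]; exact hd)
  refine ⟨e.symm U, e.symm V, e.symm (Polynomial.C w), ?_, ?_, ?_⟩
  · have := congrArg e.symm h3
    rw [map_add, map_mul, map_mul, AlgEquiv.symm_apply_apply, AlgEquiv.symm_apply_apply] at this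
    exact this
  · rw [Ne, map_eq_zero_iff e.symm e.symm.injective, Polynomial.C_eq_zero]
    exact h4
  · rw [he, AlgEquiv.apply_symm_apply, Polynomial.natDegree_C]

end Pool.Agent.PPX.H65
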